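import Pool.Agent.Lib.MP_95ac01_nt.Iface

/-!
# MP_95ac01_nt: modules BAD and BADASY: the bad points are negligible
-/

set_option autoImplicit false

namespace H72

open Finset Filter Cub

/-- points on a hyperplane -/
theorem card_hyp (B : ℕ) (u : Fin 4 → ℤ) (hu : u ≠ 0) :
    ((cube B).filter fun x => dt u x = 0).card ≤ (2 * B + 1) ^ 3 := by
  classical
  obtain ⟨i, hi⟩ : ∃ i, u i ≠ 0 := by
    by_contra hcon
    push Not at hcon
    exact hu (funext hcon)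
  obtain ⟨E, hE⟩ : ∃ E : Fin 4 → Finset ℤ, E = fun l => if l = i then {0} else
    Icc (-(B : ℤ)) B := ⟨_, rfl⟩
  have hEc : (Fintype.piFinset E).card = (2 * B + 1) ^ 3 := by
    rw [Fintype.card_piFinset, ← Finset.mul_prod_erase univ _ (mem_univ i)]
    have h1 : (E i).card = 1 := by rw [hE]; simp
    have h2 : ∀ l ∈ univ.erase i, (E l).card = 2 * B + 1 := by
      intro l hl
      rw [hE]
      dsimp only
      rw [if_neg (ne_of_mem_erase hl), Int.card_Icc]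
      omega
    rw [h1, one_mul, prod_congr rfl h2, prod_const, card_erase_of_mem (mem_univ i), card_univ,
      Fintype.card_fin]
  rw [← hEc]
  apply card_le_card_of_injOn (fun x => Function.update x i 0)
  · intro x hx
    rw [mem_coe, mem_filter, mem_cube] at hx
    rw [mem_coe, Fintype.mem_piFinset]
    intro l
    rw [hE]
    dsimp only
    by_cases hl : l = i
    · rw [if_pos hl, hl, Function.update_self, mem_singleton]
    · rw [if_neg hl, Function.update_of_ne hl, mem_Icc]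
      exact abs_le.1 (hx.1 l)
  · intro x hx y hy hxy
    rw [mem_coe, mem_filter] at hx hy
    dsimp only at hxy
    have h1 : ∀ l, l ≠ i → x l = y l := by
      intro l hl
      have := congrFun hxy l
      rw [Function.update_of_ne hl, Function.update_of_ne hl] at this
      exact this
    have h2 : u i * (x i - y i) = 0 := by
      have e1 : dt u x = u i * x i + ∑ l ∈ univ.erase i, u l * x l := by
        unfold dt
        rw [← Finset.add_sum_erase univ _ (mem_univ i)]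
      have e2 : dt u y = u i * y i + ∑ l ∈ univ.erase i, u l * y l := by
        unfold dt
        rw [← Finset.add_sum_erase univ _ (mem_univ i)]
      have e3 : ∑ l ∈ univ.erase i, u l * x l = ∑ l ∈ univ.erase i, u l * y l :=
        sum_congr rfl fun l hl => by rw [h1 l (ne_of_mem_erase hl)]
      have e4 := hx.2
      have e5 := hy.2
      rw [e1] at e4
      rw [e2] at e5
      linarith
    have h3 : x i = y i := by
      have := (mul_eq_zero.1 h2).resolve_left hi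
      linarith
    funext l
    by_cases hl : l = i
    · rw [hl]
      exact h3
    · exact h1 l hl

/-- **BAD** -/
theorem bad (h2 : Bad2Statement) (h3 : Bad3Statement) (h4 : Bad4Statement) : BadStatement := by
  classical
  obtain ⟨C, hC⟩ := h2
  obtain ⟨C', hC'⟩ := h4
  refine ⟨(C' : ℝ) * C ^ 3 + 27 * (2 * C + 1) ^ 4 + 1, by positivity, ?_⟩
  intro A B hA hAB hBA
  have hB : 1 ≤ B := hA.trans hAB
  have hAR : (1 : ℝ) ≤ A := by exact_mod_cast hA
  have hBR : (1 : ℝ) ≤ B := by exact_mod_cast hB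
  obtain ⟨K, hK⟩ : ∃ K : ℕ, K = C * B / A := ⟨_, rfl⟩
  obtain ⟨M, hM⟩ : ∃ M : ℕ, M = C * B / A ^ 2 := ⟨_, rfl⟩
  have hKR : (K : ℝ) ≤ C * B / A := by
    have h5 : ((C * B / A : ℕ) : ℝ) ≤ ((C * B : ℕ) : ℝ) / (A : ℝ) := Nat.cast_div_le
    rw [hK]
    push_cast at h5
    exact h5
  have hMR : (M : ℝ) ≤ C * (B / A ^ 2) := by
    have h5 : ((C * B / A ^ 2 : ℕ) : ℝ) ≤ ((C * B : ℕ) : ℝ) / ((A ^ 2 : ℕ) : ℝ) := Nat.cast_div_le
    rw [hM]
    push_cast at h5
    rw [← mul_div_assoc]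
    exact h5
  -- the two parts
  have hsub : badSet A B ⊆
      ((cube B).filter fun x => 1 ≤ K ∧ ∃ z : Fin 4 → ℤ, 0 < wd x z ∧ wd x z ≤ K) ∪
      ((cube M).filter fun u => u ≠ 0).biUnion (fun u => (cube B).filter fun x => dt u x = 0) := by
    intro x hx
    unfold badSet at hx
    rw [mem_filter] at hx
    obtain ⟨hxs, hxg⟩ := hx
    have hxB : x ∈ cube B := mem_cube.2 (mem_shell.1 hxs).1
    have hxP := (mem_shell.1 hxs).2.1
    rw [mem_union]
    rcases hC A B x hA hAB hBA hxs hxg with ⟨u, hu0, hux, husz⟩ | ⟨u, l, hux, hlx, hw0, hw⟩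
    · right
      rw [mem_biUnion]
      refine ⟨u, ?_, ?_⟩
      · rw [mem_filter, mem_cube]
        refine ⟨?_, hu0⟩
        apply sz_le.1
        rw [hM]
        exact (Nat.le_div_iff_mul_le (by positivity)).2 husz
      · rw [mem_filter]
        exact ⟨hxB, hux⟩
    · left
      obtain ⟨z, hz⟩ := h3 x u l hxP hux hlx
      have h5 : wd x z ≤ K := by
        rw [hz, hK]
        exact (Nat.le_div_iff_mul_le (by omega)).2 hw
      have h6 : 0 < wd x z := by rw [hz]; exact hw0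
      rw [mem_filter]
      exact ⟨hxB, by omega, z, h6, h5⟩
  have hpart1 : (((cube B).filter fun x => 1 ≤ K ∧ ∃ z : Fin 4 → ℤ, 0 < wd x z ∧ wd x z ≤ K).card : ℝ) ≤
      C' * C ^ 3 * ((B : ℝ) ^ 5 / (A : ℝ) ^ 3) := by
    by_cases hK1 : 1 ≤ K
    · have h5 := hC' B K hB hK1
      have h6 : ((cube B).filter fun x => 1 ≤ K ∧ ∃ z : Fin 4 → ℤ, 0 < wd x z ∧ wd x z ≤ K) =
          ((cube B).filter fun x => ∃ z : Fin 4 → ℤ, 0 < wd x z ∧ wd x z ≤ K) := by
        apply filter_congr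
        intro x _
        exact ⟨fun h => h.2, fun h => ⟨hK1, h⟩⟩
      rw [h6]
      have h7 : ((((cube B).filter fun x => ∃ z : Fin 4 → ℤ, 0 < wd x z ∧ wd x z ≤ K).card : ℕ) : ℝ) ≤
          C' * B ^ 2 * K ^ 3 := by exact_mod_cast h5
      refine h7.trans ?_
      have h8 : (K : ℝ) ^ 3 ≤ (C * B / A) ^ 3 := pow_le_pow_left₀ (by positivity) hKR 3
      calc (C' : ℝ) * B ^ 2 * K ^ 3 ≤ C' * B ^ 2 * (C * B / A) ^ 3 :=
            mul_le_mul_of_nonneg_left h8 (by positivity)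
        _ = C' * C ^ 3 * ((B : ℝ) ^ 5 / (A : ℝ) ^ 3) := by
            rw [div_pow, mul_pow]
            ring
    · have h6 : ((cube B).filter fun x => 1 ≤ K ∧ ∃ z : Fin 4 → ℤ, 0 < wd x z ∧ wd x z ≤ K) = ∅ := by
        rw [filter_eq_empty_iff]
        intro x _ h
        exact hK1 h.1
      rw [h6, card_empty, Nat.cast_zero]
      positivity
  have hpart2 : ((((cube M).filter fun u => u ≠ 0).biUnion
      (fun u => (cube B).filter fun x => dt u x = 0)).card : ℝ) ≤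
      27 * (2 * C + 1) ^ 4 * (((B : ℝ) / (A : ℝ) ^ 2 + 1) ^ 4 * (B : ℝ) ^ 3) := by
    have h5 : (((cube M).filter fun u => u ≠ 0).biUnion
      (fun u => (cube B).filter fun x => dt u x = 0)).card ≤ (2 * M + 1) ^ 4 * (2 * B + 1) ^ 3 := by
      refine card_biUnion_le.trans ?_
      refine (sum_le_sum fun u hu => card_hyp B u (mem_filter.1 hu).2).trans ?_
      rw [sum_const, smul_eq_mul]
      apply Nat.mul_le_mul_right
      rw [← card_cube M]
      exact card_filter_le _ _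
    have h6 : ((((cube M).filter fun u => u ≠ 0).biUnion
      (fun u => (cube B).filter fun x => dt u x = 0)).card : ℝ) ≤
        (2 * M + 1) ^ 4 * (2 * B + 1) ^ 3 := by exact_mod_cast h5
    refine h6.trans ?_
    have h7 : (2 * M + 1 : ℝ) ≤ (2 * C + 1) * ((B : ℝ) / (A : ℝ) ^ 2 + 1) := by
      have h8 : (0 : ℝ) ≤ (B : ℝ) / (A : ℝ) ^ 2 := by positivity
      have h9 : (0 : ℝ) ≤ C := Nat.cast_nonneg C
      nlinarith
    have h8 : (2 * B + 1 : ℝ) ≤ 3 * B := by linarith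
    calc (2 * M + 1 : ℝ) ^ 4 * (2 * B + 1) ^ 3 ≤
        ((2 * C + 1) * ((B : ℝ) / (A : ℝ) ^ 2 + 1)) ^ 4 * (3 * B) ^ 3 :=
          mul_le_mul (pow_le_pow_left₀ (by positivity) h7 4)
            (pow_le_pow_left₀ (by positivity) h8 3) (by positivity) (by positivity)
      _ = 27 * (2 * C + 1) ^ 4 * (((B : ℝ) / (A : ℝ) ^ 2 + 1) ^ 4 * (B : ℝ) ^ 3) := by ring
  have h5 : ((badSet A B).card : ℝ) ≤
      (((cube B).filter fun x => 1 ≤ K ∧ ∃ z : Fin 4 → ℤ, 0 < wd x z ∧ wd x z ≤ K).card : ℝ) +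
      ((((cube M).filter fun u => u ≠ 0).biUnion
        (fun u => (cube B).filter fun x => dt u x = 0)).card : ℝ) := by
    have := (card_le_card hsub).trans (card_union_le _ _)
    exact_mod_cast this
  have e1 : (0 : ℝ) ≤ (B : ℝ) ^ 5 / (A : ℝ) ^ 3 := by positivity
  have e2 : (0 : ℝ) ≤ ((B : ℝ) / (A : ℝ) ^ 2 + 1) ^ 4 * (B : ℝ) ^ 3 := by positivity
  have e3 : (0 : ℝ) ≤ (C' : ℝ) * C ^ 3 := by positivity
  have e4 : (0 : ℝ) ≤ 27 * (2 * (C : ℝ) + 1) ^ 4 := by positivity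
  have e5 := mul_nonneg e3 e2
  have e6 := mul_nonneg e4 e1
  calc ((badSet A B).card : ℝ) ≤ C' * C ^ 3 * ((B : ℝ) ^ 5 / (A : ℝ) ^ 3) +
        27 * (2 * C + 1) ^ 4 * (((B : ℝ) / (A : ℝ) ^ 2 + 1) ^ 4 * (B : ℝ) ^ 3) := by linarith
    _ ≤ ((C' : ℝ) * C ^ 3 + 27 * (2 * C + 1) ^ 4 + 1) *
        ((B : ℝ) ^ 5 / (A : ℝ) ^ 3 + ((B : ℝ) / (A : ℝ) ^ 2 + 1) ^ 4 * (B : ℝ) ^ 3) := by
        have : ((C' : ℝ) * C ^ 3 + 27 * (2 * C + 1) ^ 4 + 1) *
          ((B : ℝ) ^ 5 / (A : ℝ) ^ 3 + ((B : ℝ) / (A : ℝ) ^ 2 + 1) ^ 4 * (B : ℝ) ^ 3) =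
          C' * C ^ 3 * ((B : ℝ) ^ 5 / (A : ℝ) ^ 3) +
          27 * (2 * C + 1) ^ 4 * (((B : ℝ) / (A : ℝ) ^ 2 + 1) ^ 4 * (B : ℝ) ^ 3) +
          (C' : ℝ) * C ^ 3 * (((B : ℝ) / (A : ℝ) ^ 2 + 1) ^ 4 * (B : ℝ) ^ 3) +
          27 * (2 * (C : ℝ) + 1) ^ 4 * ((B : ℝ) ^ 5 / (A : ℝ) ^ 3) +
          ((B : ℝ) ^ 5 / (A : ℝ) ^ 3 + ((B : ℝ) / (A : ℝ) ^ 2 + 1) ^ 4 * (B : ℝ) ^ 3) := by ring
        rw [this]
        linarith

/-- **BADASY** -/
theorem badasy (hb : BadStatement) (ha : AsyStatement) : BadAsyStatement := by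
  obtain ⟨C, hC0, hC⟩ := hb
  obtain ⟨a1, a2, -, -, -, a6, a7, a8⟩ := ha
  have hlim : Tendsto (fun H : ℕ => C * ((Bf H : ℝ) / (Af H : ℝ) ^ 3 +
      8 * ((Bf H : ℝ) ^ 3 / (Af H : ℝ) ^ 8 + (Bf H : ℝ)⁻¹))) atTop (nhds 0) := by
    have h1 : Tendsto (fun H : ℕ => (Bf H : ℝ)⁻¹) atTop (nhds 0) := tendsto_inv_atTop_zero.comp a2
    have h2 := (a6.add ((a7.add h1).const_mul 8)).const_mul C
    simpa using h2
  refine squeeze_zero' (Eventually.of_forall fun H => by positivity) ?_ hlim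
  have hA1 : ∀ᶠ H : ℕ in atTop, (1 : ℝ) ≤ Af H := a1.eventually_ge_atTop 1
  have hB100 : ∀ᶠ H : ℕ in atTop, (Bf H : ℝ) / (Af H : ℝ) ^ 3 < 1 / 100 :=
    a6.eventually_lt_const (by norm_num)
  filter_upwards [hA1, hB100, a8] with H h1 h2 h3
  have hA : 1 ≤ Af H := by exact_mod_cast h1
  have hApos : (0 : ℝ) < Af H := by linarith
  have hBpos : (0 : ℝ) < Bf H := by
    have : 0 < Bf H := by omega
    exact_mod_cast this
  have h4 : 100 * Bf H ≤ Af H ^ 3 := by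
    rw [div_lt_iff₀ (by positivity)] at h2
    have : (100 : ℝ) * Bf H ≤ (Af H : ℝ) ^ 3 := by linarith
    exact_mod_cast this
  have h5 := hC (Af H) (Bf H) hA h3 h4
  rw [div_le_iff₀ (by positivity)]
  refine h5.trans ?_
  rw [mul_assoc]
  apply mul_le_mul_of_nonneg_left _ hC0.le
  generalize (Bf H : ℝ) = b at *
  generalize (Af H : ℝ) = a at *
  have h6 : (b / a ^ 2 + 1) ^ 4 ≤ 8 * ((b / a ^ 2) ^ 4 + 1) := by
    have h7 : 0 ≤ b / a ^ 2 := by positivity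
    generalize b / a ^ 2 = t at *
    nlinarith [sq_nonneg (t - 1), sq_nonneg (t ^ 2 - 1), mul_nonneg h7 (sq_nonneg (t - 1)),
      mul_nonneg (sq_nonneg t) (sq_nonneg (t - 1)), sq_nonneg (t ^ 2 - t)]
  have h8 : (b / a ^ 3 + 8 * (b ^ 3 / a ^ 8 + b⁻¹)) * b ^ 4 =
      b ^ 5 / a ^ 3 + 8 * ((b / a ^ 2) ^ 4 + 1) * b ^ 3 := by
    field_simp
  rw [h8]
  have h9 : (b / a ^ 2 + 1) ^ 4 * b ^ 3 ≤ 8 * ((b / a ^ 2) ^ 4 + 1) * b ^ 3 :=
    mul_le_mul_of_nonneg_right h6 (by positivity)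
  linarith

end H72
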