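import Pool.Agent.Lib.MP_95ac01_nt.Iface

/-!
# MP_95ac01_nt: module BAD3: the dual bivector
-/

set_option autoImplicit false

namespace H72

open Finset Cub

theorem bad3_aux {R : Type*} [CommRing R] (x u l w : Fin 4 → R) (hw : dt w x = 1) (hu : dt u x = 0)
    (hl : dt l x = 0) : ∃ z : Fin 4 → R, mn x z 0 1 = mn u l 2 3 ∧ mn x z 0 2 = - mn u l 1 3 ∧
      mn x z 0 3 = mn u l 1 2 ∧ mn x z 1 2 = mn u l 0 3 ∧ mn x z 1 3 = - mn u l 0 2 ∧
      mn x z 2 3 = mn u l 0 1 := by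
  refine ⟨![- w 1 * mn u l 2 3 + w 2 * mn u l 1 3 - w 3 * mn u l 1 2,
    w 0 * mn u l 2 3 - w 2 * mn u l 0 3 + w 3 * mn u l 0 2,
    - w 0 * mn u l 1 3 + w 1 * mn u l 0 3 - w 3 * mn u l 0 1,
    w 0 * mn u l 1 2 - w 1 * mn u l 0 2 + w 2 * mn u l 0 1], ?_⟩
  simp only [dt, Fin.sum_univ_four] at hw hu hl
  simp only [mn, Matrix.cons_val_zero, Matrix.cons_val_one, Matrix.cons_val]
  have h0 : x 1 * (u 1 * l 0 - u 0 * l 1) + x 2 * (u 2 * l 0 - u 0 * l 2) +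
      x 3 * (u 3 * l 0 - u 0 * l 3) = 0 := by linear_combination l 0 * hu - u 0 * hl
  have h1 : x 0 * (u 0 * l 1 - u 1 * l 0) + x 2 * (u 2 * l 1 - u 1 * l 2) +
      x 3 * (u 3 * l 1 - u 1 * l 3) = 0 := by linear_combination l 1 * hu - u 1 * hl
  have h2 : x 0 * (u 0 * l 2 - u 2 * l 0) + x 1 * (u 1 * l 2 - u 2 * l 1) +
      x 3 * (u 3 * l 2 - u 2 * l 3) = 0 := by linear_combination l 2 * hu - u 2 * hl
  have h3 : x 0 * (u 0 * l 3 - u 3 * l 0) + x 1 * (u 1 * l 3 - u 3 * l 1) +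
      x 2 * (u 2 * l 3 - u 3 * l 2) = 0 := by linear_combination l 3 * hu - u 3 * hl
  refine ⟨?_, ?_, ?_, ?_, ?_, ?_⟩
  · linear_combination (u 2 * l 3 - u 3 * l 2) * hw - w 2 * h3 + w 3 * h2
  · linear_combination (- (u 1 * l 3 - u 3 * l 1)) * hw + w 1 * h3 - w 3 * h1
  · linear_combination (u 1 * l 2 - u 2 * l 1) * hw - w 1 * h2 + w 2 * h1
  · linear_combination (u 0 * l 3 - u 3 * l 0) * hw - w 0 * h3 + w 3 * h0
  · linear_combination (- (u 0 * l 2 - u 2 * l 0)) * hw + w 0 * h2 - w 2 * h0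
  · linear_combination (u 0 * l 1 - u 1 * l 0) * hw - w 0 * h1 + w 1 * h0

theorem wd_le' {x y : Fin 4 → ℤ} {K : ℕ} (h01 : |mn x y 0 1| ≤ (K : ℤ)) (h02 : |mn x y 0 2| ≤ (K : ℤ))
    (h03 : |mn x y 0 3| ≤ (K : ℤ)) (h12 : |mn x y 1 2| ≤ (K : ℤ)) (h13 : |mn x y 1 3| ≤ (K : ℤ))
    (h23 : |mn x y 2 3| ≤ (K : ℤ)) : wd x y ≤ K := by
  have hd : ∀ i, |mn x y i i| ≤ (K : ℤ) := fun i => by simp [mn]
  have hs : ∀ i j, |mn x y i j| ≤ (K : ℤ) → |mn x y j i| ≤ (K : ℤ) := fun i j h => by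
    rw [mn_swap, abs_neg]
    exact h
  refine wd_le.2 fun i j => ?_
  fin_cases i <;> fin_cases j
  · exact hd 0
  · exact h01
  · exact h02
  · exact h03
  · exact hs _ _ h01
  · exact hd 1
  · exact h12
  · exact h13
  · exact hs _ _ h02
  · exact hs _ _ h12
  · exact hd 2
  · exact h23
  · exact hs _ _ h03
  · exact hs _ _ h13
  · exact hs _ _ h23
  · exact hd 3

/-- **BAD3** -/
theorem bad3 : Bad3Statement := by
  rintro x u l ⟨w, hw⟩ hu hl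
  obtain ⟨z, h1, h2, h3, h4, h5, h6⟩ := bad3_aux x u l w hw hu hl
  refine ⟨z, le_antisymm ?_ ?_⟩
  · apply wd_le'
    · rw [h1]; exact abs_mn_le u l _ _
    · rw [h2, abs_neg]; exact abs_mn_le u l _ _
    · rw [h3]; exact abs_mn_le u l _ _
    · rw [h4]; exact abs_mn_le u l _ _
    · rw [h5, abs_neg]; exact abs_mn_le u l _ _
    · rw [h6]; exact abs_mn_le u l _ _
  · apply wd_le'
    · rw [← h6]; exact abs_mn_le x z _ _
    · rw [← abs_neg, ← h5]; exact abs_mn_le x z _ _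
    · rw [← h4]; exact abs_mn_le x z _ _
    · rw [← h3]; exact abs_mn_le x z _ _
    · rw [← abs_neg, ← h2]; exact abs_mn_le x z _ _
    · rw [← h1]; exact abs_mn_le x z _ _

end H72
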