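import Pool.Agent.Lib.MP_95ac01_nt.Iface

/-!
# MP_95ac01_nt: module BAD4: count of the points with a small bivector
-/

set_option autoImplicit false

namespace H72

open Finset Cub

open Classical in
/-- the possible values of the other coordinates -/
noncomputable def XS (K : ℕ) (a b : ℤ) : Finset ℤ :=
  if a ≠ 0 ∧ Int.gcd a b ≤ K then
    (Icc (-|a|) |a|).filter fun t => ∃ s : ℤ, |a * s - t * b| ≤ (K : ℤ)
  else ∅

theorem card_XS (K : ℕ) (a b : ℤ) : (XS K a b).card ≤ 15 * K := by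
  classical
  unfold XS
  split_ifs with h
  swap
  · simp
  obtain ⟨ha, hg⟩ := h
  obtain ⟨g, hgdef⟩ : ∃ g : ℕ, g = Int.gcd a b := ⟨_, rfl⟩
  rw [← hgdef] at hg
  have hg1 : 1 ≤ g := by
    rw [hgdef]
    exact Nat.one_le_iff_ne_zero.2 (Int.gcd_ne_zero_left ha)
  have hga : (g : ℤ) ∣ a := by rw [hgdef]; exact Int.gcd_dvd_left _ _
  have hgb : (g : ℤ) ∣ b := by rw [hgdef]; exact Int.gcd_dvd_right _ _
  obtain ⟨a', ha'⟩ := hga
  obtain ⟨b', hb'⟩ := hgb
  have hg0 : (g : ℤ) ≠ 0 := by exact_mod_cast (by omega : g ≠ 0)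
  have hcop : IsCoprime a' b' := by
    rw [Int.isCoprime_iff_gcd_eq_one]
    have h1 : Int.gcd a b = g * Int.gcd a' b' := by
      rw [ha', hb', Int.gcd_mul_left, Int.natAbs_natCast]
    rw [← hgdef] at h1
    have h2 : g * 1 = g * Int.gcd a' b' := by rw [mul_one]; exact h1
    exact (Nat.eq_of_mul_eq_mul_left (by omega) h2).symm
  have ha'0 : a' ≠ 0 := by
    rintro rfl
    exact ha (by rw [ha', mul_zero])
  -- representatives
  have hrep : ∀ m : ℤ, ∃ t0 : ℤ, (∃ s t : ℤ, |t| ≤ |a| ∧ a * s - t * b = g * m) →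
      (|t0| ≤ |a| ∧ ∃ s0 : ℤ, a * s0 - t0 * b = g * m) := by
    intro m
    by_cases hex : ∃ s t : ℤ, |t| ≤ |a| ∧ a * s - t * b = g * m
    · obtain ⟨s, t, ht, hst⟩ := hex
      exact ⟨t, fun _ => ⟨ht, s, hst⟩⟩
    · exact ⟨0, fun h => absurd h hex⟩
  choose t0 ht0 using hrep
  have hsub : ((Icc (-|a|) |a|).filter fun t => ∃ s : ℤ, |a * s - t * b| ≤ (K : ℤ)) ⊆
      ((Icc (-((K / g : ℕ) : ℤ)) ((K / g : ℕ) : ℤ)) ×ˢ (Icc (-(2 * g : ℤ)) (2 * g))).image
        (fun p => t0 p.1 + a' * p.2) := by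
    intro t ht
    rw [mem_filter, mem_Icc] at ht
    obtain ⟨ht, s, hs⟩ := ht
    have ht' : |t| ≤ |a| := abs_le.2 ht
    have hdiv : (g : ℤ) ∣ a * s - t * b := by
      rw [ha', hb']
      exact ⟨a' * s - t * b', by ring⟩
    obtain ⟨m, hm⟩ := hdiv
    obtain ⟨h0, s0, hs0⟩ := ht0 m ⟨s, t, ht', hm⟩
    -- `a' ∣ t - t0`
    have h1 : a' ∣ b' * (t - t0 m) := by
      refine ⟨s - s0, ?_⟩
      have h2 : (g : ℤ) * (b' * (t - t0 m)) = g * (a' * (s - s0)) := by
        rw [ha', hb'] at hm hs0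
        linear_combination hs0 - hm
      exact mul_left_cancel₀ hg0 h2
    have h3 : a' ∣ t - t0 m := hcop.dvd_of_dvd_mul_left h1
    obtain ⟨k, hk⟩ := h3
    rw [mem_image]
    refine ⟨(m, k), ?_, by dsimp only; rw [← hk]; ring⟩
    rw [mem_product, mem_Icc, mem_Icc]
    constructor
    · -- size of m
      rw [hm, abs_mul] at hs
      have hgabs : |(g : ℤ)| = g := abs_of_nonneg (Int.natCast_nonneg g)
      rw [hgabs] at hs
      rw [← abs_le]
      have h4 : (|m|).toNat * g ≤ K := by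
        have h5 : ((|m|).toNat : ℤ) = |m| := Int.toNat_of_nonneg (abs_nonneg m)
        have h6 : (((|m|).toNat * g : ℕ) : ℤ) ≤ K := by
          push_cast
          rw [h5]
          linarith
        exact_mod_cast h6
      have h7 : (|m|).toNat ≤ K / g := (Nat.le_div_iff_mul_le (by omega)).2 h4
      have h5 : ((|m|).toNat : ℤ) = |m| := Int.toNat_of_nonneg (abs_nonneg m)
      rw [← h5]
      exact_mod_cast h7
    · rw [← abs_le]
      have h4 : |a'| * |k| ≤ |a'| * (2 * g) := by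
        calc |a'| * |k| = |t - t0 m| := by rw [hk, abs_mul]
          _ ≤ |t| + |t0 m| := abs_sub _ _
          _ ≤ |a| + |a| := add_le_add ht' h0
          _ = |a'| * (2 * g) := by
            rw [ha', abs_mul, abs_of_nonneg (Int.natCast_nonneg g)]
            ring
      exact le_of_mul_le_mul_left h4 (abs_pos.2 ha'0)
  refine (card_le_card hsub).trans (card_image_le.trans ?_)
  rw [card_product, Int.card_Icc, Int.card_Icc]
  have e1 : (((K / g : ℕ) : ℤ) + 1 - -((K / g : ℕ) : ℤ)).toNat = 2 * (K / g) + 1 := by omega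
  have e2 : ((2 * g : ℤ) + 1 - -(2 * g : ℤ)).toNat = 4 * g + 1 := by omega
  rw [e1, e2]
  have h8 : K / g * g ≤ K := Nat.div_mul_le_self K g
  have h9 : K / g ≤ K := Nat.div_le_self K g
  nlinarith

/-- the box of points with given data -/
noncomputable def PS (K : ℕ) (i : Fin 4) (a b : ℤ) : Finset (Fin 4 → ℤ) :=
  Fintype.piFinset fun j => if j = i then {a} else XS K a b

theorem card_PS (K : ℕ) (i : Fin 4) (a b : ℤ) : (PS K i a b).card ≤ (15 * K) ^ 3 := by
  unfold PS
  rw [Fintype.card_piFinset, ← Finset.mul_prod_erase univ _ (mem_univ i), if_pos rfl,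
    card_singleton, one_mul]
  have h1 : ∏ x ∈ univ.erase i, (if x = i then ({a} : Finset ℤ) else XS K a b).card ≤
      ∏ _x ∈ univ.erase i, (15 * K) := by
    refine Finset.prod_le_prod' fun j hj => ?_
    rw [if_neg (ne_of_mem_erase hj)]
    exact card_XS K a b
  refine h1.trans ?_
  rw [prod_const, card_erase_of_mem (mem_univ i), card_univ, Fintype.card_fin]

theorem mn_add_smul (x z : Fin 4 → ℤ) (k : ℤ) (i j : Fin 4) :
    mn x (fun l => z l + k * x l) i j = mn x z i j := by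
  unfold mn
  ring

/-- **BAD4** -/
theorem bad4 : Bad4Statement := by
  classical
  refine ⟨12 * 15 ^ 3, fun B K hB hK => ?_⟩
  have hsub : ((cube B).filter fun x => ∃ z : Fin 4 → ℤ, 0 < wd x z ∧ wd x z ≤ K) ⊆
      ((univ : Finset (Fin 4)) ×ˢ (Icc (-(B : ℤ)) B) ×ˢ (Ico (0 : ℤ) B)).biUnion
        (fun p => PS K p.1 p.2.1 p.2.2) := by
    intro x hx
    rw [mem_filter, mem_cube] at hx
    obtain ⟨hxB, z, hz0, hzK⟩ := hx
    obtain ⟨i, hi⟩ := exists_sz x
    have hxi : ∀ j, |x j| ≤ |x i| := fun j => by rw [hi]; exact abs_le_sz x j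
    have hxi0 : x i ≠ 0 := by
      intro h0
      rw [wd_pos_iff] at hz0
      obtain ⟨p, q, hpq⟩ := hz0
      apply hpq
      have h1 : ∀ j, x j = 0 := fun j => by
        have := hxi j
        rw [h0, abs_zero] at this
        exact abs_eq_zero.1 (le_antisymm this (abs_nonneg _))
      simp [mn, h1]
    -- reduce `z`
    obtain ⟨z', hz'⟩ : ∃ z' : Fin 4 → ℤ, z' = fun l => z l + (- (z i / x i)) * x l := ⟨_, rfl⟩
    have hmn : ∀ p q, mn x z' p q = mn x z p q := fun p q => by rw [hz']; exact mn_add_smul x z _ p q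
    have hz'i : z' i = z i % x i := by
      rw [hz']
      dsimp only
      rw [Int.emod_def]
      ring
    have hz'0 : 0 ≤ z' i := by rw [hz'i]; exact Int.emod_nonneg _ hxi0
    have hz'1 : z' i < |x i| := by rw [hz'i]; exact Int.emod_lt_abs _ hxi0
    have hmnK : ∀ j, |x i * z' j - x j * z' i| ≤ (K : ℤ) := by
      intro j
      have h1 := hmn i j
      unfold mn at h1
      have h2 := abs_mn_le x z i j
      unfold mn at h2
      rw [h1]
      have h3 : (wd x z : ℤ) ≤ K := by exact_mod_cast hzK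
      exact h2.trans h3
    -- the gcd is at most `K`
    have hgcd : Int.gcd (x i) (z' i) ≤ K := by
      obtain ⟨j, hj⟩ : ∃ j, x i * z' j - x j * z' i ≠ 0 := by
        by_contra hcon
        push Not at hcon
        rw [wd_pos_iff] at hz0
        obtain ⟨p, q, hpq⟩ := hz0
        apply hpq
        rw [← hmn]
        unfold mn
        have h1 := hcon p
        have h2 := hcon q
        have h3 : x i * (x p * z' q - x q * z' p) = 0 := by
          linear_combination x p * h2 - x q * h1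
        exact (mul_eq_zero.1 h3).resolve_left hxi0
      have hdvd : ((Int.gcd (x i) (z' i) : ℕ) : ℤ) ∣ x i * z' j - x j * z' i := by
        refine dvd_sub ?_ ?_
        · exact (Int.gcd_dvd_left _ _).mul_right _
        · exact (Int.gcd_dvd_right _ _).mul_left _
      have h4 := Int.le_of_dvd (abs_pos.2 hj) ((dvd_abs _ _).2 hdvd)
      have h5 := h4.trans (hmnK j)
      exact_mod_cast h5
    rw [mem_biUnion]
    refine ⟨(i, x i, z' i), ?_, ?_⟩
    · rw [mem_product, mem_product, mem_Icc, mem_Ico]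
      exact ⟨mem_univ _, abs_le.1 (hxB i), hz'0, lt_of_lt_of_le hz'1 (hxB i)⟩
    · unfold PS
      rw [Fintype.mem_piFinset]
      intro j
      by_cases hj : j = i
      · rw [if_pos hj, mem_singleton, hj]
      · rw [if_neg hj]
        unfold XS
        rw [if_pos ⟨hxi0, hgcd⟩, mem_filter, mem_Icc]
        exact ⟨abs_le.1 (hxi j), z' j, hmnK j⟩
  refine (card_le_card hsub).trans (card_biUnion_le.trans ?_)
  refine (Finset.sum_le_sum fun p _ => card_PS K p.1 p.2.1 p.2.2).trans ?_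
  rw [sum_const, card_product, card_product, card_univ, Fintype.card_fin, Int.card_Icc,
    Int.card_Ico, smul_eq_mul]
  have e1 : ((B : ℤ) + 1 - -(B : ℤ)).toNat = 2 * B + 1 := by omega
  have e2 : ((B : ℤ) - 0).toNat = B := by omega
  rw [e1, e2]
  have h1 : 4 * ((2 * B + 1) * B) ≤ 12 * B ^ 2 := by nlinarith
  calc 4 * ((2 * B + 1) * B) * (15 * K) ^ 3 ≤ 12 * B ^ 2 * (15 * K) ^ 3 :=
        Nat.mul_le_mul_right _ h1
    _ = 12 * 15 ^ 3 * B ^ 2 * K ^ 3 := by ring

end H72
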