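import Pool.Agent.Lib.MP_95ac01_nt.Iface

/-!
# MP_95ac01_nt: module LIN: three independent vectors orthogonal to `x`
-/

set_option autoImplicit false
set_option linter.unusedSimpArgs false

namespace H72

open Finset Cub

/-- the square matrix -/
def MM (l : Fin 3 → Fin 4 → ℤ) (x : Fin 4 → ℤ) : Matrix (Fin 4) (Fin 4) ℤ :=
  Matrix.of ![l 0, l 1, l 2, x]

theorem dt_self_pos {x : Fin 4 → ℤ} (hx : x ≠ 0) : dt x x ≠ 0 := by
  intro h
  apply hx
  have h1 : ∀ i ∈ (univ : Finset (Fin 4)), 0 ≤ x i * x i := fun i _ => mul_self_nonneg _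
  funext i
  have := (Finset.sum_eq_zero_iff_of_nonneg h1).1 h i (mem_univ i)
  simpa using this

theorem det_MM {l : Fin 3 → Fin 4 → ℤ} {x : Fin 4 → ℤ} (hl : LinearIndependent ℤ l)
    (hlx : ∀ a, dt (l a) x = 0) (hx : x ≠ 0) : (MM l x).det ≠ 0 := by
  intro h
  rw [← Matrix.exists_vecMul_eq_zero_iff] at h
  obtain ⟨c, hc, h0⟩ := h
  have h1 : ∀ j, c 0 * l 0 j + c 1 * l 1 j + c 2 * l 2 j + c 3 * x j = 0 := by
    intro j
    have := congrFun h0 j
    simp only [Matrix.vecMul, dotProduct, Fin.sum_univ_four, MM, Matrix.of_apply,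
      Matrix.cons_val_zero, Matrix.cons_val_one, Matrix.cons_val, Pi.zero_apply] at this
    exact this
  have h2 : c 3 * dt x x = 0 := by
    have e0 := hlx 0
    have e1 := hlx 1
    have e2 := hlx 2
    simp only [dt, Fin.sum_univ_four] at e0 e1 e2 ⊢
    have k0 := h1 0
    have k1 := h1 1
    have k2 := h1 2
    have k3 := h1 3
    linear_combination x 0 * k0 + x 1 * k1 + x 2 * k2 + x 3 * k3 - c 0 * e0 - c 1 * e1 - c 2 * e2
  have h3 : c 3 = 0 := (mul_eq_zero.1 h2).resolve_right (dt_self_pos hx)
  have h4 : ∑ a : Fin 3, (![c 0, c 1, c 2] a) • l a = 0 := by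
    funext j
    rw [Fin.sum_univ_three]
    simp only [Matrix.cons_val_zero, Matrix.cons_val_one, Matrix.cons_val, Pi.add_apply,
      Pi.smul_apply, smul_eq_mul, Pi.zero_apply]
    have := h1 j
    rw [h3] at this
    linarith
  have h5 := Fintype.linearIndependent_iff.1 hl _ h4
  apply hc
  funext i
  fin_cases i
  · exact h5 0
  · exact h5 1
  · exact h5 2
  · exact h3

/-- **LIN** -/
theorem lin : LinStatement := by
  intro l x hl hlx hx
  have hdet := det_MM hl hlx hx
  constructor
  · intro α hα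
    obtain ⟨N, hN⟩ : ∃ N : Matrix (Fin 4) (Fin 4) ℝ, N = (MM l x).map (Int.cast : ℤ → ℝ) := ⟨_, rfl⟩
    have hNdet : N.det ≠ 0 := by
      have h1 : N.det = (((MM l x).det : ℤ) : ℝ) := by
        rw [hN]
        exact ((Int.castRingHom ℝ).map_det (MM l x)).symm
      rw [h1]
      exact_mod_cast hdet
    have hunit : IsUnit N.det := isUnit_iff_ne_zero.2 hNdet
    obtain ⟨c, hc⟩ : ∃ c : Fin 4 → ℝ, c = Matrix.vecMul α N⁻¹ := ⟨_, rfl⟩
    have h1 : Matrix.vecMul c N = α := by
      rw [hc, Matrix.vecMul_vecMul, Matrix.nonsing_inv_mul _ hunit, Matrix.vecMul_one]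
    have h2 : ∀ j, c 0 * (l 0 j : ℝ) + c 1 * l 1 j + c 2 * l 2 j + c 3 * x j = α j := by
      intro j
      have := congrFun h1 j
      rw [hN] at this
      simp only [Matrix.vecMul, dotProduct, Fin.sum_univ_four, MM, Matrix.map_apply,
        Matrix.of_apply, Matrix.cons_val_zero, Matrix.cons_val_one, Matrix.cons_val] at this
      exact this
    have h3 : c 3 * ((dt x x : ℤ) : ℝ) = 0 := by
      have e : ∀ a, ((l a 0 : ℤ) : ℝ) * x 0 + l a 1 * x 1 + l a 2 * x 2 + l a 3 * x 3 = 0 := by
        intro a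
        have := hlx a
        simp only [dt, Fin.sum_univ_four] at this
        exact_mod_cast this
      have e0 := e 0
      have e1 := e 1
      have e2 := e 2
      simp only [dt, cx, Fin.sum_univ_four] at hα ⊢
      have k0 := h2 0
      have k1 := h2 1
      have k2 := h2 2
      have k3 := h2 3
      push_cast
      linear_combination (x 0 : ℝ) * k0 + x 1 * k1 + x 2 * k2 + x 3 * k3 - c 0 * e0 - c 1 * e1 -
        c 2 * e2 + hα
    have h4 : c 3 = 0 := by
      refine (mul_eq_zero.1 h3).resolve_right ?_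
      exact_mod_cast dt_self_pos hx
    have h5 : α = ∑ a : Fin 3, (![c 0, c 1, c 2] a) • cx ℝ (l a) := by
      funext j
      rw [Fin.sum_univ_three]
      simp only [Matrix.cons_val_zero, Matrix.cons_val_one, Matrix.cons_val, Pi.add_apply,
        Pi.smul_apply, smul_eq_mul, cx]
      have := h2 j
      rw [h4] at this
      linarith
    rw [h5]
    exact Submodule.sum_mem _ fun a _ => Submodule.smul_mem _ _ (Submodule.subset_span ⟨a, rfl⟩)
  · intro z hz
    have h1 : Matrix.mulVec (MM l x) (fun i => dt x x * z i - dt x z * x i) = 0 := by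
      have e0 := hlx 0
      have e1 := hlx 1
      have e2 := hlx 2
      have f0 := hz 0
      have f1 := hz 1
      have f2 := hz 2
      simp only [dt, Fin.sum_univ_four] at e0 e1 e2 f0 f1 f2
      funext i
      fin_cases i
      · simp only [Matrix.mulVec, dotProduct, Fin.sum_univ_four, MM, Matrix.of_apply, dt,
          Matrix.cons_val_zero, Matrix.cons_val_one, Matrix.cons_val, Pi.zero_apply,
          Fin.zero_eta]
        linear_combination (x 0 * x 0 + x 1 * x 1 + x 2 * x 2 + x 3 * x 3) * f0 -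
          (x 0 * z 0 + x 1 * z 1 + x 2 * z 2 + x 3 * z 3) * e0
      · simp only [Matrix.mulVec, dotProduct, Fin.sum_univ_four, MM, Matrix.of_apply, dt,
          Matrix.cons_val_zero, Matrix.cons_val_one, Matrix.cons_val, Pi.zero_apply, Fin.mk_one]
        linear_combination (x 0 * x 0 + x 1 * x 1 + x 2 * x 2 + x 3 * x 3) * f1 -
          (x 0 * z 0 + x 1 * z 1 + x 2 * z 2 + x 3 * z 3) * e1
      · simp only [Matrix.mulVec, dotProduct, Fin.sum_univ_four, MM, Matrix.of_apply, dt,
          Matrix.cons_val_zero, Matrix.cons_val_one, Matrix.cons_val, Pi.zero_apply,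
          Fin.reduceFinMk]
        linear_combination (x 0 * x 0 + x 1 * x 1 + x 2 * x 2 + x 3 * x 3) * f2 -
          (x 0 * z 0 + x 1 * z 1 + x 2 * z 2 + x 3 * z 3) * e2
      · simp only [Matrix.mulVec, dotProduct, Fin.sum_univ_four, MM, Matrix.of_apply, dt,
          Matrix.cons_val_zero, Matrix.cons_val_one, Matrix.cons_val, Pi.zero_apply,
          Fin.reduceFinMk]
        ring
    have h2 : (fun i => dt x x * z i - dt x z * x i) = 0 := by
      by_contra hne
      exact hdet (Matrix.exists_mulVec_eq_zero_iff.1 ⟨_, hne, h1⟩)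
    have h3 : ∀ i j, mn x z i j = 0 := by
      intro i j
      have hi := congrFun h2 i
      have hj := congrFun h2 j
      dsimp only [Pi.zero_apply] at hi hj
      have h4 : dt x x * mn x z i j = 0 := by
        unfold mn
        linear_combination x i * hj - x j * hi
      exact (mul_eq_zero.1 h4).resolve_left (dt_self_pos hx)
    have h5 : wd x z ≤ 0 := wd_le.2 fun i j => by rw [h3 i j]; simp
    omega

end H72
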