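import Pool.Agent.Lib.MP_95ac01_nt.Iface

/-!
# MP_95ac01_nt: module REGC: counting primitive vectors in progressions
-/

set_option autoImplicit false

namespace H72

open Finset Cub

/-- progressions in an interval -/
theorem card_prog (m : ℕ) (hm : 1 ≤ m) (b c : ℤ) (n : ℕ) :
    ((Ico b (b + m * n)).filter fun t => (m : ℤ) ∣ t - c).card = n := by
  have hm0 : (0 : ℤ) < m := by exact_mod_cast hm
  obtain ⟨t0, ht0⟩ : ∃ t0 : ℤ, t0 = b + (c - b) % m := ⟨_, rfl⟩
  have h1 : b ≤ t0 := by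
    have := Int.emod_nonneg (c - b) hm0.ne'
    omega
  have h2 : t0 < b + m := by
    have := Int.emod_lt_of_pos (c - b) hm0
    omega
  have h3 : (m : ℤ) ∣ t0 - c := by
    have h4 := Int.emod_add_mul_ediv (c - b) m
    exact ⟨-((c - b) / m), by rw [ht0]; linarith⟩
  have h5 : ((Ico b (b + m * n)).filter fun t => (m : ℤ) ∣ t - c) =
      (range n).image (fun k : ℕ => t0 + m * k) := by
    ext t
    rw [mem_filter, mem_Ico, mem_image]
    constructor
    · rintro ⟨⟨hb, hb'⟩, hd⟩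
      obtain ⟨k, hk⟩ : (m : ℤ) ∣ t - t0 := by
        have := dvd_sub hd h3
        rwa [sub_sub_sub_cancel_right] at this
      have hk0 : 0 ≤ k := by
        by_contra hneg
        push Not at hneg
        have : (m : ℤ) * k ≤ -m := by nlinarith
        linarith
      refine ⟨k.toNat, ?_, ?_⟩
      · rw [mem_range]
        have h6 : (m : ℤ) * k < m * n := by linarith
        have h7 : k < n := lt_of_mul_lt_mul_left h6 hm0.le
        omega
      · rw [Int.toNat_of_nonneg hk0]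
        linarith
    · rintro ⟨k, hk, rfl⟩
      rw [mem_range] at hk
      have h6 : (m : ℤ) * (k + 1) ≤ m * n := by
        apply mul_le_mul_of_nonneg_left _ hm0.le
        exact_mod_cast hk
      have h7 : (0 : ℤ) ≤ m * k := by positivity
      refine ⟨⟨by linarith, by linarith⟩, ?_⟩
      have : t0 + (m : ℤ) * k - c = t0 - c + m * k := by ring
      rw [this]
      exact dvd_add h3 (dvd_mul_right _ _)
  rw [h5, card_image_of_injective _ (fun x y hxy => ?_), card_range]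
  have : (m : ℤ) * x = m * y := by
    simpa using hxy
  have := mul_left_cancel₀ hm0.ne' this
  exact_mod_cast this

theorem card_prog_le (m d : ℕ) (hm : 1 ≤ m) (hd : 1 ≤ d) (b : ℤ) (n : ℕ) (F : Finset ℤ)
    (hF : ∀ t ∈ F, b ≤ t ∧ t < b + m * n) (hF2 : ∀ t ∈ F, ∀ t' ∈ F, ((m * d : ℕ) : ℤ) ∣ t - t') :
    F.card ≤ n / d + 1 := by
  rcases F.eq_empty_or_nonempty with h | ⟨t0, ht0⟩
  · rw [h, card_empty]
    exact Nat.zero_le _
  · have h1 : F ⊆ (Ico b (b + (m * d : ℕ) * (n / d + 1 : ℕ))).filter fun t => ((m * d : ℕ) : ℤ) ∣ t - t0 := by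
      intro t ht
      rw [mem_filter, mem_Ico]
      obtain ⟨h2, h3⟩ := hF t ht
      refine ⟨⟨h2, lt_of_lt_of_le h3 ?_⟩, hF2 t ht t0 ht0⟩
      have h4 : m * n ≤ m * d * (n / d + 1) := by
        have h5 : n < d * (n / d + 1) := by
          have := Nat.lt_mul_div_succ n (show 0 < d by omega)
          exact this
        calc m * n ≤ m * (d * (n / d + 1)) := Nat.mul_le_mul_left _ h5.le
          _ = m * d * (n / d + 1) := by ring
      have h5 : ((m * n : ℕ) : ℤ) ≤ ((m * d * (n / d + 1) : ℕ) : ℤ) := by exact_mod_cast h4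
      push_cast at h5 ⊢
      linarith
    exact (card_le_card h1).trans (le_of_eq (card_prog (m * d) (Nat.mul_pos hm hd) b t0 _))

/-- multiples of `d` in a symmetric interval -/
theorem card_mult_le (B d : ℕ) (hd : 1 ≤ d) :
    ((Icc (-(B : ℤ)) B).filter fun t => (d : ℤ) ∣ t).card ≤ 2 * (B / d) + 1 := by
  have h1 : ((Icc (-(B : ℤ)) B).filter fun t => (d : ℤ) ∣ t) ⊆
      (Icc (-((B / d : ℕ) : ℤ)) ((B / d : ℕ) : ℤ)).image (fun k => (d : ℤ) * k) := by
    intro t ht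
    rw [mem_filter, mem_Icc, ← abs_le] at ht
    obtain ⟨ht, k, hk⟩ := ht
    rw [mem_image]
    refine ⟨k, ?_, hk.symm⟩
    rw [mem_Icc, ← abs_le]
    rw [hk, abs_mul, abs_of_nonneg (Int.natCast_nonneg d)] at ht
    have h5 : ((|k|).toNat : ℤ) = |k| := Int.toNat_of_nonneg (abs_nonneg k)
    rw [← h5] at ht ⊢
    have h6 : (|k|).toNat * d ≤ B := by
      have : ((d * (|k|).toNat : ℕ) : ℤ) ≤ B := by push_cast; exact ht
      rw [mul_comm]
      exact_mod_cast this
    have h7 := (Nat.le_div_iff_mul_le (by omega : 0 < d)).2 h6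
    exact_mod_cast h7
  refine (card_le_card h1).trans (card_image_le.trans ?_)
  rw [Int.card_Icc]
  omega

/-- a vector is primitive or divisible by some `d ≥ 2` -/
theorem prim_or {x : Fin 4 → ℤ} (hx : x ≠ 0) (h : ¬ Prim x) :
    ∃ d : ℕ, 2 ≤ d ∧ ∀ i, (d : ℤ) ∣ x i := by
  obtain ⟨g, hg⟩ := (IsPrincipalIdealRing.principal (Ideal.span (Set.range x))).principal
  have h1 : ∀ i, g ∣ x i := by
    intro i
    have h2 : x i ∈ Ideal.span (Set.range x) := Ideal.subset_span ⟨i, rfl⟩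
    have h3 : x i ∈ Ideal.span {g} := by
      rw [← Ideal.submodule_span_eq, ← hg]
      exact h2
    exact Ideal.mem_span_singleton.1 h3
  have h2 : g ∈ Ideal.span (Set.range x) := by
    rw [hg]
    exact Submodule.mem_span_singleton_self g
  obtain ⟨u, hu⟩ := Ideal.mem_span_range_iff_exists_fun.1 h2
  have hu' : dt u x = g := hu
  refine ⟨g.natAbs, ?_, fun i => Int.natAbs_dvd.2 (h1 i)⟩
  by_contra hlt
  have h3 : g.natAbs = 0 ∨ g.natAbs = 1 := by omega
  rcases h3 with h3 | h3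
  · rw [Int.natAbs_eq_zero] at h3
    apply hx
    funext i
    have := h1 i
    rw [h3, zero_dvd_iff] at this
    exact this
  · rcases Int.natAbs_eq g with h4 | h4
    · apply h
      exact ⟨u, by rw [hu', h4, h3]; rfl⟩
    · apply h
      refine ⟨-u, ?_⟩
      have : dt (-u) x = - dt u x := by simp [dt]
      rw [this, hu', h4, h3]
      rfl

/-- the conditions -/
def RR (j : Fin 4) (q L₁ L₂ : ℕ) (a α : Fin 4 → ℤ) (β : (Fin 4 → ℤ) → ℤ) (x : Fin 4 → ℤ) : Prop :=
  (∀ i, (q : ℤ) ∣ x i - a i) ∧ (∀ l, l ≠ j → α l ≤ x l ∧ x l < α l + q * L₁) ∧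
    β x ≤ x j ∧ x j < β x + q * L₂

section

variable (j : Fin 4) (q L₁ L₂ B : ℕ) (a α : Fin 4 → ℤ) (β : (Fin 4 → ℤ) → ℤ)

open Classical in
theorem count_low (hq : 1 ≤ q) (hβ : ∀ x t, β (Function.update x j t) = β x)
    (hB : ∀ x : Fin 4 → ℤ, (∀ l, l ≠ j → α l ≤ x l ∧ x l < α l + q * L₁) →
      β x ≤ x j → x j < β x + q * L₂ → x ∈ cube B ∧ x ≠ 0) :
    L₁ ^ 3 * L₂ ≤ ((cube B).filter (RR j q L₁ L₂ a α β)).card := by
  obtain ⟨E, hE⟩ : ∃ E : Fin 4 → Finset ℤ, E = fun l => if l = j then {0} else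
    (Ico (α l) (α l + q * L₁)).filter fun t => (q : ℤ) ∣ t - a l := ⟨_, rfl⟩
  obtain ⟨F, hF⟩ : ∃ F : (Fin 4 → ℤ) → Finset ℤ, F = fun w =>
    (Ico (β w) (β w + q * L₂)).filter fun t => (q : ℤ) ∣ t - a j := ⟨_, rfl⟩
  have hEc : (Fintype.piFinset E).card = L₁ ^ 3 := by
    rw [Fintype.card_piFinset, ← Finset.mul_prod_erase univ _ (mem_univ j)]
    have h1 : (E j).card = 1 := by rw [hE]; simp
    have h2 : ∀ l ∈ univ.erase j, (E l).card = L₁ := by
      intro l hl
      rw [hE]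
      dsimp only
      rw [if_neg (ne_of_mem_erase hl), card_prog q hq]
    rw [h1, one_mul, prod_congr rfl h2, prod_const, card_erase_of_mem (mem_univ j), card_univ,
      Fintype.card_fin]
  have hFc : ∀ w, (F w).card = L₂ := by
    intro w
    rw [hF]
    exact card_prog q hq _ _ _
  have hT : ((Fintype.piFinset E).sigma F).card = L₁ ^ 3 * L₂ := by
    rw [card_sigma, sum_congr rfl fun w _ => hFc w, sum_const, hEc, smul_eq_mul]
  rw [← hT]
  apply card_le_card_of_injOn (fun p => Function.update p.1 j p.2)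
  · rintro ⟨w, t⟩ hp
    rw [mem_coe, mem_sigma, Fintype.mem_piFinset] at hp
    obtain ⟨hw, ht⟩ := hp
    dsimp only at hw ht ⊢
    rw [hF] at ht
    rw [mem_filter, mem_Ico] at ht
    have hw' : ∀ l, l ≠ j → (α l ≤ w l ∧ w l < α l + q * L₁) ∧ (q : ℤ) ∣ w l - a l := by
      intro l hl
      have := hw l
      rw [hE] at this
      dsimp only at this
      rw [if_neg hl, mem_filter, mem_Ico] at this
      exact this
    have hR : RR j q L₁ L₂ a α β (Function.update w j t) := by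
      refine ⟨?_, ?_, ?_, ?_⟩
      · intro i
        by_cases hi : i = j
        · subst hi
          rw [Function.update_self]
          exact ht.2
        · rw [Function.update_of_ne hi]
          exact (hw' i hi).2
      · intro l hl
        rw [Function.update_of_ne hl]
        exact (hw' l hl).1
      · rw [hβ, Function.update_self]
        exact ht.1.1
      · rw [hβ, Function.update_self]
        exact ht.1.2
    rw [mem_coe, mem_filter]
    exact ⟨(hB _ hR.2.1 hR.2.2.1 hR.2.2.2).1, hR⟩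
  · rintro ⟨w, t⟩ hp ⟨w', t'⟩ hp' heq
    rw [mem_coe, mem_sigma, Fintype.mem_piFinset] at hp hp'
    dsimp only at heq hp hp'
    have h0 : ∀ w : Fin 4 → ℤ, (∀ l, w l ∈ E l) → w j = 0 := by
      intro w hw
      have := hw j
      rw [hE] at this
      simpa using this
    have h1 : t = t' := by
      have := congrFun heq j
      simpa using this
    have h2 : w = w' := by
      funext l
      by_cases hl : l = j
      · subst hl
        rw [h0 w hp.1, h0 w' hp'.1]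
      · have := congrFun heq l
        rw [Function.update_of_ne hl, Function.update_of_ne hl] at this
        exact this
    subst h1
    subst h2
    rfl

open Classical in
theorem count_div (hq : 1 ≤ q) (hβ : ∀ x t, β (Function.update x j t) = β x) (d : ℕ) (hd : 1 ≤ d)
    (hcop : Nat.Coprime d q) :
    (((cube B).filter (RR j q L₁ L₂ a α β)).filter fun x => ∀ i, (d : ℤ) ∣ x i).card ≤
      (L₁ / d + 1) ^ 3 * (L₂ / d + 1) := by
  obtain ⟨E, hE⟩ : ∃ E : Fin 4 → Finset ℤ, E = fun l => if l = j then {0} else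
    (Ico (α l) (α l + q * L₁)).filter fun t => (q : ℤ) ∣ t - a l ∧ (d : ℤ) ∣ t := ⟨_, rfl⟩
  obtain ⟨F, hF⟩ : ∃ F : (Fin 4 → ℤ) → Finset ℤ, F = fun w =>
    (Ico (β w) (β w + q * L₂)).filter fun t => (q : ℤ) ∣ t - a j ∧ (d : ℤ) ∣ t := ⟨_, rfl⟩
  have hqd : ∀ t t' c : ℤ, (q : ℤ) ∣ t - c → (d : ℤ) ∣ t → (q : ℤ) ∣ t' - c → (d : ℤ) ∣ t' →
      ((q * d : ℕ) : ℤ) ∣ t - t' := by
    intro t t' c h1 h2 h3 h4
    have h5 : (q : ℤ) ∣ t - t' := by
      have := dvd_sub h1 h3
      rwa [sub_sub_sub_cancel_right] at this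
    have h6 : (d : ℤ) ∣ t - t' := dvd_sub h2 h4
    have h7 : IsCoprime (q : ℤ) (d : ℤ) := Nat.isCoprime_iff_coprime.2 hcop.symm
    have := h7.mul_dvd h5 h6
    push_cast
    exact this
  have hEc : (Fintype.piFinset E).card ≤ (L₁ / d + 1) ^ 3 := by
    rw [Fintype.card_piFinset, ← Finset.mul_prod_erase univ _ (mem_univ j)]
    have h1 : (E j).card = 1 := by rw [hE]; simp
    have h2 : ∀ l ∈ univ.erase j, (E l).card ≤ L₁ / d + 1 := by
      intro l hl
      rw [hE]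
      dsimp only
      rw [if_neg (ne_of_mem_erase hl)]
      apply card_prog_le q d hq hd (α l) L₁
      · intro t ht
        rw [mem_filter, mem_Ico] at ht
        exact ht.1
      · intro t ht t' ht'
        rw [mem_filter] at ht ht'
        exact hqd t t' _ ht.2.1 ht.2.2 ht'.2.1 ht'.2.2
    rw [h1, one_mul]
    refine (prod_le_prod' h2).trans (le_of_eq ?_)
    rw [prod_const, card_erase_of_mem (mem_univ j), card_univ, Fintype.card_fin]
  have hFc : ∀ w, (F w).card ≤ L₂ / d + 1 := by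
    intro w
    rw [hF]
    apply card_prog_le q d hq hd (β w) L₂
    · intro t ht
      rw [mem_filter, mem_Ico] at ht
      exact ht.1
    · intro t ht t' ht'
      rw [mem_filter] at ht ht'
      exact hqd t t' _ ht.2.1 ht.2.2 ht'.2.1 ht'.2.2
  have hT : ((Fintype.piFinset E).sigma F).card ≤ (L₁ / d + 1) ^ 3 * (L₂ / d + 1) := by
    rw [card_sigma]
    refine (sum_le_sum fun w _ => hFc w).trans ?_
    rw [sum_const, smul_eq_mul]
    exact Nat.mul_le_mul_right _ hEc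
  refine le_trans ?_ hT
  apply card_le_card_of_injOn (fun x => (⟨Function.update x j 0, x j⟩ : (_ : Fin 4 → ℤ) × ℤ))
  · intro x hx
    rw [mem_coe, mem_filter, mem_filter] at hx
    obtain ⟨⟨-, h1, h2, h3, h4⟩, h5⟩ := hx
    rw [mem_coe, mem_sigma, Fintype.mem_piFinset]
    dsimp only
    constructor
    · intro l
      rw [hE]
      dsimp only
      by_cases hl : l = j
      · rw [if_pos hl, hl, Function.update_self, mem_singleton]
      · rw [if_neg hl, Function.update_of_ne hl, mem_filter, mem_Ico]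
        exact ⟨h2 l hl, h1 l, h5 l⟩
    · rw [hF]
      dsimp only
      rw [mem_filter, mem_Ico, hβ]
      exact ⟨⟨h3, h4⟩, h1 j, h5 j⟩
  · intro x _ x' _ heq
    dsimp only at heq
    rw [Sigma.mk.injEq] at heq
    obtain ⟨h1, h2⟩ := heq
    have h2' : x j = x' j := eq_of_heq h2
    funext l
    by_cases hl : l = j
    · rw [hl]
      exact h2'
    · have := congrFun h1 l
      rw [Function.update_of_ne hl, Function.update_of_ne hl] at this
      exact this

open Classical in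
theorem count_big (d : ℕ) (hd : 1 ≤ d) :
    (((cube B).filter (RR j q L₁ L₂ a α β)).filter fun x => ∀ i, (d : ℤ) ∣ x i).card ≤
      (2 * (B / d) + 1) ^ 4 := by
  have h1 : (((cube B).filter (RR j q L₁ L₂ a α β)).filter fun x => ∀ i, (d : ℤ) ∣ x i) ⊆
      Fintype.piFinset (fun _ : Fin 4 => (Icc (-(B : ℤ)) B).filter fun t => (d : ℤ) ∣ t) := by
    intro x hx
    rw [mem_filter, mem_filter, mem_cube] at hx
    rw [Fintype.mem_piFinset]
    intro i
    rw [mem_filter, mem_Icc]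
    exact ⟨abs_le.1 (hx.1.1 i), hx.2 i⟩
  refine (card_le_card h1).trans ?_
  rw [Fintype.card_piFinset, prod_const, card_univ, Fintype.card_fin]
  exact Nat.pow_le_pow_left (card_mult_le B d hd) 4

end

/-- **REGC** -/
theorem regc : RegCStatement := by
  classical
  refine ⟨81 * 80 ^ 3, by norm_num, ?_⟩
  intro j q L₁ L₂ B a α β hq hL2 hL12 hU hβ hB
  have hrw : ((cube B).filter fun x => Prim x ∧ (∀ i, (q : ℤ) ∣ x i - a i) ∧
        (∀ l, l ≠ j → α l ≤ x l ∧ x l < α l + q * L₁) ∧ β x ≤ x j ∧ x j < β x + q * L₂) =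
      ((cube B).filter (RR j q L₁ L₂ a α β)).filter Prim := by
    ext x
    rw [mem_filter, mem_filter, mem_filter]
    unfold RR
    tauto
  rw [hrw]
  obtain ⟨S, hS⟩ : ∃ S : Finset (Fin 4 → ℤ), S = (cube B).filter (RR j q L₁ L₂ a α β) := ⟨_, rfl⟩
  rw [← hS]
  have hlow : L₁ ^ 3 * L₂ ≤ S.card := by rw [hS]; exact count_low j q L₁ L₂ B a α β hq hβ hB
  have hsplit : S.card = (S.filter Prim).card + (S.filter fun x => ¬ Prim x).card :=
    (card_filter_add_card_filter_not (s := S) Prim).symm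
  obtain ⟨Sd, hSd⟩ : ∃ Sd : ℕ → Finset (Fin 4 → ℤ), Sd = fun d =>
    if Nat.Coprime d q then S.filter (fun x => ∀ i, (d : ℤ) ∣ x i) else ∅ := ⟨_, rfl⟩
  have hnon : (S.filter fun x => ¬ Prim x) ⊆ (Icc 2 B).biUnion Sd := by
    intro x hx
    rw [mem_filter] at hx
    obtain ⟨hxS, hxP⟩ := hx
    have hxS' := hxS
    rw [hS, mem_filter] at hxS'
    obtain ⟨hxB, hxR⟩ := hxS'
    have hx0 := (hB x hxR.2.1 hxR.2.2.1 hxR.2.2.2).2
    obtain ⟨d, hd2, hd⟩ := prim_or hx0 hxP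
    rw [mem_biUnion]
    refine ⟨d, ?_, ?_⟩
    · rw [mem_Icc]
      refine ⟨hd2, ?_⟩
      obtain ⟨i, hi⟩ : ∃ i, x i ≠ 0 := by
        by_contra hcon
        push Not at hcon
        exact hx0 (funext hcon)
      have h1 := Int.le_of_dvd (abs_pos.2 hi) ((dvd_abs _ _).2 (hd i))
      have h2 := h1.trans ((mem_cube.1 hxB) i)
      exact_mod_cast h2
    · rw [hSd]
      dsimp only
      have hcop : Nat.Coprime d q := by
        obtain ⟨u, hu⟩ := hU
        obtain ⟨g, hg⟩ : ∃ g : ℕ, g = Nat.gcd d q := ⟨_, rfl⟩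
        have h1 : (g : ℤ) ∣ d := by rw [hg]; exact_mod_cast Nat.gcd_dvd_left d q
        have h2 : (g : ℤ) ∣ q := by rw [hg]; exact_mod_cast Nat.gcd_dvd_right d q
        have h3 : ∀ i, (g : ℤ) ∣ a i := by
          intro i
          have h4 := h2.trans (hxR.1 i)
          have h5 := h1.trans (hd i)
          have := dvd_sub h5 h4
          rwa [sub_sub_cancel] at this
        have h4 : (g : ℤ) ∣ dt u a := Finset.dvd_sum fun i _ => (h3 i).mul_left _
        have h5 : (g : ℤ) ∣ 1 := by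
          have := dvd_sub h4 (h2.trans hu)
          rwa [sub_sub_cancel] at this
        have h6 : g ∣ 1 := by exact_mod_cast h5
        have h7 : g = 1 := Nat.dvd_one.1 h6
        rw [Nat.coprime_iff_gcd_eq_one, ← hg, h7]
      rw [if_pos hcop, mem_filter]
      exact ⟨hxS, hd⟩
  have hcardN : ((S.filter fun x => ¬ Prim x).card : ℝ) ≤ ∑ d ∈ Icc 2 B, ((Sd d).card : ℝ) := by
    have h1 := (card_le_card hnon).trans card_biUnion_le
    exact_mod_cast h1
  obtain ⟨D, hD⟩ : ∃ D : ℕ, D = L₂ / 40 := ⟨_, rfl⟩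
  have hD1 : 1 ≤ D := by omega
  have hD40 : 40 * D ≤ L₂ := by omega
  have hD80 : L₂ ≤ 80 * D := by omega
  have hL1R : (40 : ℝ) ≤ L₁ := by exact_mod_cast hL2.trans hL12
  have hL2R : (40 : ℝ) ≤ L₂ := by exact_mod_cast hL2
  have hDR : (1 : ℝ) ≤ D := by exact_mod_cast hD1
  -- small `d`
  have hsmall : ∀ d ∈ (Icc 2 B).filter (fun d => d ≤ D), ((Sd d).card : ℝ) ≤
      (41 / 40) ^ 4 * ((L₁ : ℝ) ^ 3 * L₂) * (1 / 4) * ((d : ℝ) ^ 2)⁻¹ := by
    intro d hd
    rw [mem_filter, mem_Icc] at hd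
    obtain ⟨⟨hd2, -⟩, hdD⟩ := hd
    have hd0 : (2 : ℝ) ≤ d := by exact_mod_cast hd2
    have hdp : (0 : ℝ) < d := by linarith
    have hd40 : (40 : ℝ) * d ≤ L₂ := by
      have : 40 * d ≤ L₂ := by omega
      exact_mod_cast this
    have hd40' : (40 : ℝ) * d ≤ L₁ := hd40.trans (by exact_mod_cast hL12)
    have hb : ((Sd d).card : ℝ) ≤ (((L₁ / d : ℕ) : ℝ) + 1) ^ 3 * (((L₂ / d : ℕ) : ℝ) + 1) := by
      rw [hSd]
      dsimp only
      split_ifs with hcop
      · rw [hS]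
        have := count_div j q L₁ L₂ B a α β hq hβ d (by omega) hcop
        exact_mod_cast this
      · rw [card_empty, Nat.cast_zero]
        positivity
    have e1 : ((L₁ / d : ℕ) : ℝ) + 1 ≤ 41 / 40 * (L₁ / d) := by
      have h1 : ((L₁ / d : ℕ) : ℝ) ≤ L₁ / d := Nat.cast_div_le
      have h2 : 1 ≤ 1 / 40 * ((L₁ : ℝ) / d) := by
        rw [← mul_div_assoc, le_div_iff₀ hdp]
        linarith
      linarith
    have e2 : ((L₂ / d : ℕ) : ℝ) + 1 ≤ 41 / 40 * (L₂ / d) := by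
      have h1 : ((L₂ / d : ℕ) : ℝ) ≤ L₂ / d := Nat.cast_div_le
      have h2 : 1 ≤ 1 / 40 * ((L₂ : ℝ) / d) := by
        rw [← mul_div_assoc, le_div_iff₀ hdp]
        linarith
      linarith
    have e3 : (((L₁ / d : ℕ) : ℝ) + 1) ^ 3 * (((L₂ / d : ℕ) : ℝ) + 1) ≤
        (41 / 40 * (L₁ / d)) ^ 3 * (41 / 40 * (L₂ / d)) :=
      mul_le_mul (pow_le_pow_left₀ (by positivity) e1 3) e2 (by positivity) (by positivity)
    refine (hb.trans e3).trans ?_
    have e4 : (41 / 40 * ((L₁ : ℝ) / d)) ^ 3 * (41 / 40 * (L₂ / d)) =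
        (41 / 40) ^ 4 * ((L₁ : ℝ) ^ 3 * L₂) * (((d : ℝ) ^ 2)⁻¹ * ((d : ℝ) ^ 2)⁻¹) := by
      field_simp
    have e5 : ((d : ℝ) ^ 2)⁻¹ ≤ 1 / 4 := by
      rw [inv_le_comm₀ (by positivity) (by norm_num)]
      norm_num
      nlinarith
    rw [e4, mul_assoc ((41 / 40) ^ 4 * ((L₁ : ℝ) ^ 3 * L₂)) (1 / 4) _]
    apply mul_le_mul_of_nonneg_left _ (by positivity)
    exact mul_le_mul_of_nonneg_right e5 (by positivity)
  have hbig : ∀ d ∈ (Icc 2 B).filter (fun d => ¬ d ≤ D), ((Sd d).card : ℝ) ≤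
      81 * (B : ℝ) ^ 4 * ((D : ℝ) ^ 2)⁻¹ * ((d : ℝ) ^ 2)⁻¹ := by
    intro d hd
    rw [mem_filter, mem_Icc] at hd
    obtain ⟨⟨hd2, hdB⟩, hdD⟩ := hd
    have hd0 : (2 : ℝ) ≤ d := by exact_mod_cast hd2
    have hdp : (0 : ℝ) < d := by linarith
    have hdBR : (d : ℝ) ≤ B := by exact_mod_cast hdB
    have hDd : (D : ℝ) ≤ d := by
      have : D ≤ d := by omega
      exact_mod_cast this
    have hb : ((Sd d).card : ℝ) ≤ (2 * ((B / d : ℕ) : ℝ) + 1) ^ 4 := by
      rw [hSd]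
      dsimp only
      split_ifs with hcop
      · rw [hS]
        have := count_big j q L₁ L₂ B a α β d (by omega)
        exact_mod_cast this
      · rw [card_empty, Nat.cast_zero]
        positivity
    have e1 : 2 * ((B / d : ℕ) : ℝ) + 1 ≤ 3 * (B / d) := by
      have h1 : ((B / d : ℕ) : ℝ) ≤ B / d := Nat.cast_div_le
      have h2 : 1 ≤ (B : ℝ) / d := by rwa [le_div_iff₀ hdp, one_mul]
      linarith
    refine (hb.trans (pow_le_pow_left₀ (by positivity) e1 4)).trans ?_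
    have e4 : (3 * ((B : ℝ) / d)) ^ 4 = 81 * (B : ℝ) ^ 4 * (((d : ℝ) ^ 2)⁻¹ * ((d : ℝ) ^ 2)⁻¹) := by
      have e6 : ((d : ℝ) ^ 2)⁻¹ * ((d : ℝ) ^ 2)⁻¹ = ((d : ℝ) ^ 4)⁻¹ := by
        rw [← mul_inv, ← pow_add]
      rw [e6, mul_pow, div_pow, div_eq_mul_inv]
      ring
    rw [e4, mul_assoc (81 * (B : ℝ) ^ 4)]
    apply mul_le_mul_of_nonneg_left _ (by positivity)
    apply mul_le_mul_of_nonneg_right _ (by positivity)
    apply inv_anti₀ (by positivity)
    exact pow_le_pow_left₀ (by positivity) hDd 2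
  have hs1 : ∑ d ∈ (Icc 2 B).filter (fun d => d ≤ D), ((d : ℝ) ^ 2)⁻¹ ≤ 1 := by
    have h1 : (Icc 2 B).filter (fun d => d ≤ D) ⊆ Ioc 1 D := by
      intro d hd
      rw [mem_filter, mem_Icc] at hd
      rw [mem_Ioc]
      omega
    refine (sum_le_sum_of_subset_of_nonneg h1 fun d _ _ => by positivity).trans ?_
    refine (sum_Ioc_inv_sq_le_sub one_ne_zero hD1).trans ?_
    have : (0 : ℝ) ≤ (D : ℝ)⁻¹ := by positivity
    simp only [Nat.cast_one, inv_one]
    linarith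
  have hs2 : ∑ d ∈ (Icc 2 B).filter (fun d => ¬ d ≤ D), ((d : ℝ) ^ 2)⁻¹ ≤ (D : ℝ)⁻¹ := by
    have h1 : (Icc 2 B).filter (fun d => ¬ d ≤ D) ⊆ Ioc D (max D B) := by
      intro d hd
      rw [mem_filter, mem_Icc] at hd
      rw [mem_Ioc]
      exact ⟨by omega, hd.1.2.trans (le_max_right _ _)⟩
    refine (sum_le_sum_of_subset_of_nonneg h1 fun d _ _ => by positivity).trans ?_
    refine (sum_Ioc_inv_sq_le_sub (by omega) (le_max_left D B)).trans ?_
    have : (0 : ℝ) ≤ ((max D B : ℕ) : ℝ)⁻¹ := by positivity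
    linarith
  have htot : ∑ d ∈ Icc 2 B, ((Sd d).card : ℝ) ≤ (41 / 40) ^ 4 * ((L₁ : ℝ) ^ 3 * L₂) * (1 / 4) +
      81 * 80 ^ 3 * (B : ℝ) ^ 4 / (L₂ : ℝ) ^ 3 := by
    rw [← sum_filter_add_sum_filter_not (Icc 2 B) (fun d => d ≤ D)]
    apply add_le_add
    · refine (sum_le_sum hsmall).trans ?_
      rw [← mul_sum]
      have : 0 ≤ (41 / 40) ^ 4 * ((L₁ : ℝ) ^ 3 * L₂) * (1 / 4) := by positivity
      calc _ ≤ (41 / 40) ^ 4 * ((L₁ : ℝ) ^ 3 * L₂) * (1 / 4) * 1 :=
            mul_le_mul_of_nonneg_left hs1 this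
        _ = _ := mul_one _
    · refine (sum_le_sum hbig).trans ?_
      rw [← mul_sum]
      have h1 : 0 ≤ 81 * (B : ℝ) ^ 4 * ((D : ℝ) ^ 2)⁻¹ := by positivity
      refine (mul_le_mul_of_nonneg_left hs2 h1).trans ?_
      have h2 : (L₂ : ℝ) / 80 ≤ D := by
        have : (L₂ : ℝ) ≤ 80 * D := by exact_mod_cast hD80
        linarith
      have h3 : (0 : ℝ) < L₂ / 80 := by positivity
      have h4 : ((D : ℝ) ^ 3)⁻¹ ≤ (((L₂ : ℝ) / 80) ^ 3)⁻¹ := by
        apply inv_anti₀ (by positivity)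
        exact pow_le_pow_left₀ h3.le h2 3
      calc 81 * (B : ℝ) ^ 4 * ((D : ℝ) ^ 2)⁻¹ * (D : ℝ)⁻¹ = 81 * (B : ℝ) ^ 4 * ((D : ℝ) ^ 3)⁻¹ := by
            field_simp
        _ ≤ 81 * (B : ℝ) ^ 4 * (((L₂ : ℝ) / 80) ^ 3)⁻¹ :=
            mul_le_mul_of_nonneg_left h4 (by positivity)
        _ = 81 * 80 ^ 3 * (B : ℝ) ^ 4 / (L₂ : ℝ) ^ 3 := by
            field_simp
  have h1 : (S.card : ℝ) = ((S.filter Prim).card : ℝ) + ((S.filter fun x => ¬ Prim x).card : ℝ) := by
    exact_mod_cast hsplit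
  have h2 : (L₁ : ℝ) ^ 3 * L₂ ≤ S.card := by exact_mod_cast hlow
  have h3 : 0 ≤ (L₁ : ℝ) ^ 3 * L₂ := by positivity
  have h4 := hcardN.trans htot
  nlinarith

end H72
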