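import Pool.Agent.Lib.MP_95ac01_nt.Iface

/-!
# MP_95ac01_nt: module SPAN1: forms vanishing at one point
-/

set_option autoImplicit false

namespace H72

open Finset Cub

/-- A set of integer vectors contains a basis of its real span. -/
theorem extract (W : Set (Mon → ℤ)) : ∃ (r : ℕ) (v : Fin r → Mon → ℤ), r ≤ 20 ∧
    LinearIndependent ℝ (fun k => cc ℝ (v k)) ∧ (∀ k, v k ∈ W) ∧
    Submodule.span ℝ (Set.range fun k => cc ℝ (v k)) = Submodule.span ℝ (cc ℝ '' W) := by
  obtain ⟨b, hb, hspan, hli⟩ := exists_linearIndependent ℝ (cc ℝ '' W : Set (Mon → ℝ))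
  have hfin : Finite b := hli.finite
  obtain ⟨r, ⟨e⟩⟩ := Finite.exists_equiv_fin b
  have hex : ∀ k : Fin r, ∃ w ∈ W, cc ℝ w = (e.symm k : Mon → ℝ) := fun k => hb (e.symm k).2
  choose v hvW hv using hex
  have hfun : (fun k => cc ℝ (v k)) = fun k => ((e.symm k : b) : Mon → ℝ) := funext hv
  refine ⟨r, v, ?_, ?_, hvW, ?_⟩
  · have h1 : LinearIndependent ℝ (fun k => ((e.symm k : b) : Mon → ℝ)) :=
      hli.comp _ e.symm.injective
    have h2 := h1.fintype_card_le_finrank
    rw [Fintype.card_fin, Module.finrank_fintype_fun_eq_card, card_mon] at h2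
    exact h2
  · rw [hfun]
    exact hli.comp _ e.symm.injective
  · rw [hfun, ← hspan]
    congr 1
    ext x
    constructor
    · rintro ⟨k, rfl⟩
      exact (e.symm k).2
    · intro hx
      exact ⟨e ⟨x, hx⟩, by simp⟩

theorem cc_p3 (α β γ : Fin 4 → ℤ) : cc ℝ (p3 α β γ) = p3 (cx ℝ α) (cx ℝ β) (cx ℝ γ) := by
  funext m
  simp [cc, p3, cx, apply_ite]

/-- trilinear induction -/
theorem p3_mem_of_span (S : Submodule ℝ (Mon → ℝ)) (X : Set (Fin 4 → ℝ)) (β γ : Fin 4 → ℝ)
    (h : ∀ α ∈ X, p3 α β γ ∈ S) (α : Fin 4 → ℝ) (hα : α ∈ Submodule.span ℝ X) : p3 α β γ ∈ S := by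
  induction hα using Submodule.span_induction with
  | mem x hx => exact h x hx
  | zero =>
    have : p3 (0 : Fin 4 → ℝ) β γ = (0 : ℝ) • p3 (0 : Fin 4 → ℝ) β γ := by
      rw [← p3_smul_left]
      simp
    rw [this, zero_smul]
    exact S.zero_mem
  | add x y _ _ hx hy =>
    rw [p3_add_left]
    exact S.add_mem hx hy
  | smul a x _ hx =>
    rw [p3_smul_left]
    exact S.smul_mem a hx

theorem mem_span_e (α : Fin 4 → ℝ) :
    α ∈ Submodule.span ℝ (Set.range fun i : Fin 4 => (Pi.single i (1 : ℝ) : Fin 4 → ℝ)) := by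
  have h : α = ∑ i, α i • (Pi.single i (1 : ℝ) : Fin 4 → ℝ) := by
    funext k
    simp [Finset.sum_apply, Pi.single_apply]
  rw [h]
  exact Submodule.sum_mem _ fun i _ => Submodule.smul_mem _ _ (Submodule.subset_span ⟨i, rfl⟩)

theorem cx_single (i : Fin 4) : cx ℝ (Pi.single i (1 : ℤ)) = Pi.single i (1 : ℝ) := by
  funext k
  simp only [cx, Pi.single_apply]
  split_ifs <;> simp

theorem dt_add_left (α β x : Fin 4 → ℝ) : dt (α + β) x = dt α x + dt β x := by
  simp [dt, add_mul, Finset.sum_add_distrib]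

theorem dt_smul_left (t : ℝ) (α x : Fin 4 → ℝ) : dt (t • α) x = t * dt α x := by
  simp [dt, Finset.mul_sum, mul_assoc]

theorem dt_single_left (i : Fin 4) (x : Fin 4 → ℝ) : dt (Pi.single i (1 : ℝ)) x = x i := by
  simp [dt, Pi.single_apply]

/-- **SPAN1** -/
theorem span1 (hLin : LinStatement) : Span1Statement := by
  rintro A x ⟨l, hl, hlx, hlA⟩ hx
  obtain ⟨hspan, -⟩ := hLin l x hl hlx hx
  obtain ⟨r, v, hr, hli, hv, hs⟩ := extract {w | ∃ (a : Fin 3) (j k : Fin 4),
    w = p3 (l a) (Pi.single j 1) (Pi.single k 1)}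
  refine ⟨r, v, hr, hli, ?_, ?_, ?_⟩
  · intro k
    obtain ⟨a, j, k', h⟩ := hv k
    rw [h, ev_p3, hlx]
    ring
  · intro k m
    obtain ⟨a, j, k', h⟩ := hv k
    rw [h]
    have h1 : ∀ (j : Fin 4) i, |(Pi.single j (1 : ℤ) : Fin 4 → ℤ) i| ≤ 1 := by
      intro j i
      rw [Pi.single_apply]
      split_ifs <;> simp
    refine (abs_p3_le _ _ _ A 1 1 (hlA a) (h1 j) (h1 k') m).trans ?_
    have h2 : (A : ℤ) ≤ (A : ℤ) ^ 2 := by
      have : A ≤ A ^ 2 := Nat.le_self_pow (by norm_num) A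
      exact_mod_cast this
    linarith
  · intro g hg
    rw [hs]
    set S := Submodule.span ℝ (cc ℝ '' {w | ∃ (a : Fin 3) (j k : Fin 4),
      w = p3 (l a) (Pi.single j 1) (Pi.single k 1)}) with hS
    -- products with a form through `x`
    have hperp : ∀ α β γ : Fin 4 → ℝ, dt α (cx ℝ x) = 0 → p3 α β γ ∈ S := by
      intro α β γ hα
      refine p3_mem_of_span S _ β γ ?_ α (hspan α hα)
      rintro _ ⟨a, rfl⟩
      rw [p3_swap12]
      refine p3_mem_of_span S _ _ γ ?_ β (mem_span_e β)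
      rintro _ ⟨j, rfl⟩
      dsimp only
      rw [p3_swap12, p3_swap23, p3_swap12]
      refine p3_mem_of_span S _ _ _ ?_ γ (mem_span_e γ)
      rintro _ ⟨k, rfl⟩
      dsimp only
      rw [p3_swap12, p3_swap23]
      apply Submodule.subset_span
      exact ⟨p3 (l a) (Pi.single j 1) (Pi.single k 1), ⟨a, j, k, rfl⟩, by
        rw [cc_p3, cx_single, cx_single]⟩
    -- a form with value one
    obtain ⟨i0, hi0⟩ : ∃ i, x i ≠ 0 := by
      by_contra hcon
      push Not at hcon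
      exact hx (funext hcon)
    have hi0' : (x i0 : ℝ) ≠ 0 := by exact_mod_cast hi0
    obtain ⟨lam, hlam⟩ : ∃ lam : Fin 4 → ℝ, dt lam (cx ℝ x) = 1 := by
      refine ⟨(x i0 : ℝ)⁻¹ • Pi.single i0 (1 : ℝ), ?_⟩
      rw [dt_smul_left, dt_single_left]
      exact inv_mul_cancel₀ hi0'
    have hdec : ∀ α : Fin 4 → ℝ, ∃ ρ : Fin 4 → ℝ, dt ρ (cx ℝ x) = 0 ∧
        α = dt α (cx ℝ x) • lam + ρ := by
      intro α
      refine ⟨α + (- dt α (cx ℝ x)) • lam, ?_, ?_⟩
      · rw [dt_add_left, dt_smul_left, hlam]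
        ring
      · module
    have hcube : ∀ α β γ : Fin 4 → ℝ, p3 α β γ -
        (dt α (cx ℝ x) * dt β (cx ℝ x) * dt γ (cx ℝ x)) • p3 lam lam lam ∈ S := by
      intro α β γ
      obtain ⟨ρ1, h1, e1⟩ := hdec α
      obtain ⟨ρ2, h2, e2⟩ := hdec β
      obtain ⟨ρ3, h3, e3⟩ := hdec γ
      set a := dt α (cx ℝ x) with ha
      set b := dt β (cx ℝ x) with hb
      set c := dt γ (cx ℝ x) with hc
      have key : p3 α β γ - (a * b * c) • p3 lam lam lam =
          p3 ρ1 β γ + (a • p3 ρ2 lam γ + (a * b) • p3 ρ3 lam lam) := by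
        have k1 : p3 α β γ = a • p3 lam β γ + p3 ρ1 β γ := by
          conv_lhs => rw [e1]
          rw [p3_add_left, p3_smul_left]
        have k2 : p3 lam β γ = b • p3 lam lam γ + p3 ρ2 lam γ := by
          conv_lhs => rw [e2]
          rw [p3_add_mid, p3_smul_mid, p3_swap12 lam ρ2]
        have k3 : p3 lam lam γ = c • p3 lam lam lam + p3 ρ3 lam lam := by
          conv_lhs => rw [e3]
          rw [p3_add_right, p3_smul_right, p3_swap23 lam lam ρ3, p3_swap12 lam ρ3]
        rw [k1, k2, k3]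
        module
      rw [key]
      exact S.add_mem (hperp _ _ _ h1) (S.add_mem (S.smul_mem _ (hperp _ _ _ h2))
        (S.smul_mem _ (hperp _ _ _ h3)))
    -- monomials
    have hmon : ∀ m : Mon, (Pi.single m (1 : ℝ) : Mon → ℝ) - mv m (cx ℝ x) • p3 lam lam lam ∈ S := by
      intro m
      obtain ⟨i, j, k, rfl⟩ := exists_mon3 m
      have h := hcube (Pi.single i 1) (Pi.single j 1) (Pi.single k 1)
      rw [dt_single_left, dt_single_left, dt_single_left, p3_single] at h
      rw [mv_mon3]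
      exact h
    have hsum : g = ∑ m, g m • ((Pi.single m (1 : ℝ) : Mon → ℝ) - mv m (cx ℝ x) • p3 lam lam lam) := by
      have e1 : ∑ m, g m • ((Pi.single m (1 : ℝ) : Mon → ℝ) - mv m (cx ℝ x) • p3 lam lam lam) =
          (∑ m, g m • (Pi.single m (1 : ℝ) : Mon → ℝ)) - ev g (cx ℝ x) • p3 lam lam lam := by
        unfold ev
        rw [Finset.sum_smul, ← Finset.sum_sub_distrib]
        refine Finset.sum_congr rfl fun m _ => ?_
        rw [smul_sub, smul_smul]
      rw [e1, hg, zero_smul, sub_zero]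
      exact form_eq_sum g
    rw [hsum]
    exact S.sum_mem fun m _ => S.smul_mem _ (hmon m)

end H72
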